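import Pool.Agent.MP_1037db_co.LP.Main

namespace Pool.Agent.Results.MP_1037db_co.AllLp

open Pool.Agent.MP_1037db_co

/-- For every real `p ≥ 1` and every finite family of points of the unit disk of the `p`-norm there is
a wake-up tree rooted at the origin with makespan at most `1 + 2 ^ (1 + max (1 / p) (1 - 1 / p))`. -/
theorem result (p : ℝ) (hp : 1 ≤ p) (n : ℕ) (x : Fin n → ℝ × ℝ)
    (hx : ∀ i, |(x i).1| ^ p + |(x i).2| ^ p ≤ 1) :
    ∃ T : BinaryTree (Fin n), labels T = Finset.univ.val ∧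
      span (fun v => (|v.1| ^ p + |v.2| ^ p) ^ (1 / p)) x 0 T ≤
        1 + 2 ^ (1 + max (1 / p) (1 - 1 / p)) :=
  LP.all_lp hp x fun i => Real.rpow_le_one (by positivity) (hx i) (by positivity)

end Pool.Agent.Results.MP_1037db_co.AllLp
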