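import Pool.Agent.MP_1037db_co.Seven

namespace Pool.Agent.Results.MP_1037db_co.UpToSeven

open Pool.Agent.MP_1037db_co

/-- For every norm on the plane and every family of at most seven points of its unit disk there is
a wake-up tree rooted at the origin with makespan at most `1 + Lam`. -/
theorem result (η : Seminorm ℝ (ℝ × ℝ)) (hη : ∀ x, η x = 0 → x = 0) (n : ℕ) (hn : n ≤ 7)
    (p : Fin n → ℝ × ℝ) (hp : ∀ i, η (p i) ≤ 1) :
    ∃ T : BinaryTree (Fin n), labels T = Finset.univ.val ∧ span η p 0 T ≤ 1 + Lam η :=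
  seven η hη n hn p hp

end Pool.Agent.Results.MP_1037db_co.UpToSeven
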